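import Mathlib
import Pool.Agent.U62.HY.Law

/-!
# The integral points of random hyperelliptic curves, beyond the height of the curve

Let `f` be a random integer polynomial of degree at most `d` with coefficients in `[-H, H]`. For every
finite set `A` of integers the probability that the curve `y ^ 2 = f(x)` has an integral point with
`x ∈ A` is at most `C(d)` times the sum over `x ∈ A` of

  `H ^ (-1/2) min(max(1, |x|), H) ^ (-d/2)`.

So for `d ≥ 3` the probability of an integral point with `T ≤ |x| ≤ B` is at most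
`C (H ^ (-1/2) T ^ (-(d/2 - 1)) + B H ^ (-(d+1)/2))`: almost all the curves have no integral points at all
with `|x| ≤ H ^ ((d+1)/2 - ε)`, and the abscissas may also be taken from sparse sets, for instance
`|x| = n ^ k ≤ H ^ (k (d+1)/2 - ε)`, or `|x| = 2 ^ n`, `n ≤ H ^ ((d+1)/2 - ε)`, an exponentially large range.

For `|x| ≤ 4 H` this is the upper bound in `MP_d88658_nt.RandomPolynomials` of helper580 (library `U580/TT`),
which for larger `x` loses the factor `(|x|/H) ^ d` and so is trivial beyond `H ^ (1 + 1/(2d))`.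

Proof for `|x| ≥ 4 H`. A polynomial `f` with coefficients in `[-H, H]` is determined by the value `f(x)`. If the
degree is `d` and the coefficients `c_d, …, c_(s+1)`, `s = ⌊d/2⌋`, are given, then the values `f(x)` lie in an interval
of length `4 H |x| ^ s`, so the square roots `y` of the square values lie in an interval of length at most
`3 H |x| ^ (s - d/2) |c_d| ^ (-1/2)`. The sum over `c_d, …, c_(s+1)` is `O(H ^ ((d+1)/2))`.
-/

set_option autoImplicit false

namespace Pool.Agent.Results.MP_d88658_nt.AbscissasOfAllSizes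

open Polynomial

/-- the integer polynomials of degree at most `d` with coefficients in `[-H, H]` -/
def Polys (d H : ℕ) : Set ℤ[X] := {f | f.natDegree ≤ d ∧ ∀ k, |f.coeff k| ≤ (H : ℤ)}

/-- the polynomials for which the curve `y ^ 2 = f(x)` has an integral point with abscissa in `A` -/
def WithPoint (d H : ℕ) (A : Set ℤ) : Set ℤ[X] := {f | f ∈ Polys d H ∧ ∃ x ∈ A, ∃ y : ℤ, y ^ 2 = f.eval x}

/-- the proportion of a set of polynomials among all polynomials of degree at most `d` with
coefficients in `[-H, H]` -/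
noncomputable def proportion (d H : ℕ) (S : Set ℤ[X]) : ℝ := (S.ncard : ℝ) / ((Polys d H).ncard : ℝ)

/-- the weight `H ^ (-1/2) min(max(1, |x|), H) ^ (-d/2)` of an integer -/
noncomputable def weight (d H : ℕ) (x : ℤ) : ℝ :=
  (H : ℝ) ^ (-(1 / 2) : ℝ) * (min (max 1 |(x : ℝ)|) (H : ℝ)) ^ (-((d : ℝ) / 2))

/-- **Integral points of random hyperelliptic curves.** For every `d ≥ 1` there is `C > 0` such that for
all `H ≥ 1` the set `Polys d H` is finite and not empty and
(1) for every finite set `A` of integers the probability of an integral point with `x ∈ A` is at most `C` times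
the sum of the weights of the elements of `A`;
(2) if `d ≥ 3`, then for all `T ≥ 0` and `B` the probability of an integral point with `T ≤ |x| ≤ B` is at most
`C (H ^ (-1/2) max(1, T) ^ (-(d/2 - 1)) + B H ^ (-(d+1)/2))`. -/
theorem result (d : ℕ) (hd : 1 ≤ d) : ∃ C : ℝ, 0 < C ∧ ∀ H : ℕ, 1 ≤ H →
    (Polys d H).Finite ∧ (Polys d H).Nonempty ∧
    (∀ A : Finset ℤ, proportion d H (WithPoint d H A) ≤ C * ∑ x ∈ A, weight d H x) ∧
    (3 ≤ d → ∀ T B : ℕ, proportion d H (WithPoint d H {x | (T : ℤ) ≤ |x| ∧ |x| ≤ B}) ≤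
      C * ((H : ℝ) ^ (-(1 / 2) : ℝ) * (max 1 (T : ℝ)) ^ (-((d : ℝ) / 2 - 1)) +
        B * (H : ℝ) ^ (-(((d : ℝ) + 1) / 2)))) := by
  classical
  obtain ⟨C, hC, h⟩ := Pool.Agent.U62.HY.all_part d hd
  obtain ⟨K, hK, hsum⟩ : ∃ K : ℝ, 0 < K ∧ (3 ≤ d → ∀ H T B : ℕ, 1 ≤ H →
      ∑ x ∈ (Finset.Icc (-(B : ℤ)) B).filter (fun x => (T : ℤ) ≤ |x|), weight d H x ≤
      K * ((H : ℝ) ^ (-(1 / 2) : ℝ) * (max 1 (T : ℝ)) ^ (-((d : ℝ) / 2 - 1)) +
        B * (H : ℝ) ^ (-(((d : ℝ) + 1) / 2)))) := by
    by_cases hd3 : 3 ≤ d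
    · obtain ⟨K, hK, hh⟩ := Pool.Agent.U62.HY.wgt_sum d hd3
      exact ⟨K, hK, fun _ => hh⟩
    · exact ⟨1, one_pos, fun h => absurd h hd3⟩
  refine ⟨C * (1 + K), by positivity, fun H hH => ?_⟩
  obtain ⟨hfin, hpos, -⟩ := Pool.Agent.U580.TT.pl_card d H
  have hpos' : (0 : ℝ) < ((Polys d H).ncard : ℝ) := by exact_mod_cast hpos
  have hw : ∀ A : Finset ℤ, 0 ≤ ∑ x ∈ A, weight d H x := fun A =>
    Finset.sum_nonneg fun x _ => Pool.Agent.U62.HY.wgt_nonneg d H x
  have hmain : ∀ A : Finset ℤ, proportion d H (WithPoint d H A) ≤ C * ∑ x ∈ A, weight d H x := by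
    intro A
    unfold proportion
    rw [div_le_iff₀ hpos']
    exact h H hH A
  refine ⟨hfin, Set.nonempty_of_ncard_ne_zero hpos.ne', fun A => ?_, fun hd3 T B => ?_⟩
  · refine (hmain A).trans ?_
    have h1 : 0 ≤ C * K * ∑ x ∈ A, weight d H x := by
      have := hw A
      positivity
    nlinarith
  · have hset : {x : ℤ | (T : ℤ) ≤ |x| ∧ |x| ≤ B} =
        (((Finset.Icc (-(B : ℤ)) B).filter fun x => (T : ℤ) ≤ |x| : Finset ℤ) : Set ℤ) := by
      ext x
      rw [Finset.mem_coe, Finset.mem_filter, Finset.mem_Icc, ← abs_le]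
      exact and_comm
    rw [hset]
    refine (hmain _).trans ?_
    refine (mul_le_mul_of_nonneg_left (hsum hd3 H T B hH) hC.le).trans ?_
    have h1 : 0 ≤ (H : ℝ) ^ (-(1 / 2) : ℝ) * (max 1 (T : ℝ)) ^ (-((d : ℝ) / 2 - 1)) +
        B * (H : ℝ) ^ (-(((d : ℝ) + 1) / 2)) := by positivity
    nlinarith [mul_nonneg hC.le h1]

end Pool.Agent.Results.MP_d88658_nt.AbscissasOfAllSizes
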