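import Pool.Agent.U133.SE.Hyp

set_option autoImplicit false

/-!
# The Hall-Lang bound with boundedly many exceptions in each class of the 2-descent

Let `f` be an integer polynomial of degree `d ≥ 3` without repeated roots and with coefficients of
absolute value at most `H`. Two integers `x`, `y` are in the same class if `b (x - T)(y - T)` is a
square in the algebra `ℚ[T]/(f)` for some non-zero rational `b`. For two integral points of
`y ^ 2 = f(x)` (or of its quadratic twists) with the same image under the map of the 2-descent the
first coordinates are in the same class.

The question asks for a bound `|x| < (2 H) ^ M` with `M = M(d)` for all the integral points of all the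
curves `y ^ 2 = f(x)`. Here this bound is proved for all the integers `x` of each class with at most
`2 ^ (d + 1)` exceptions, and with at most `2 ^ d` exceptions if `d ≥ 5`. In particular (`d = 3`) at
most `16` exceptions in each class for every elliptic curve.

The proof (files `U133/SE`, `U133/HP`, `U133/GP`). Suppose that `x`, `y` with `|x| < |y|` are in the
same class, and in the same box of a partition of the class in `2 ^ d` boxes. Then the values of
a polynomial with rational coefficients at the roots `θ` of `f` are a constant multiple of
`√((1 - θ/x)(1 - θ/y))`, with the branches near `1`. Put `|y| = |x| ^ L`. If `L < 3`, the divided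
difference of this function at the roots is not zero and too small (its square is rational with a
bounded denominator). If `L` is larger we use the Hermite-Padé approximation of an order `n ≥ 1` of the
`d` functions `√(1 - θ z)` at `z = 0`, simultaneously for all the roots `θ`, and a zero estimate for
the `d` forms of the order `n`. This excludes `2 n + 1 < L < 2 (d - 1) n - 1`. For `d ≥ 5` these ranges
cover everything; for `d = 3, 4` they cover `L > 7.5`, and of three integers in the same box two
have `L > 7.5`, because `(11 / 4) ^ 2 > 7.5`.
-/

namespace Pool.Agent.Results.MP_d88658_nt.FewExceptions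

open Polynomial Pool.Agent.U133.GP

/-- **The Hall-Lang bound with at most `2 ^ (d + 1)` exceptions in each class.** -/
theorem result (d : ℕ) (hd : 3 ≤ d) : ∃ M : ℕ,
    ∀ (H : ℕ) (f : ℤ[X]), f.natDegree = d → (f.map (Int.castRingHom ℚ)).Separable →
    (∀ i, |f.coeff i| ≤ H) → ∀ S : Finset ℤ,
      (∀ x ∈ S, (2 * (H : ℝ)) ^ M ≤ |(x : ℝ)|) →
      (∀ x ∈ S, ∀ y ∈ S, SameClass f x y) →
        S.card ≤ 2 ^ (d + 1) ∧ (5 ≤ d → S.card ≤ 2 ^ d) :=
  Pool.Agent.U133.SE.hyp d hd

end Pool.Agent.Results.MP_d88658_nt.FewExceptions
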