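import Mathlib
import Pool.Agent.U60.HL.Fam
import Pool.Agent.U60.HL.Many

/-!
# Lower bounds for the constant `C₁(d)`

The question asks whether for every `d ≥ 3` there are constants `C₁`, `C₂` with
`h(x) ≤ C₁ h(f) + C₂` for all integral polynomials `f` of degree `d` without repeated roots and all
integral points `(x, y)` of `y² = f(x)`. We show that the constant `C₁` has to be at least `3` for
every `d`, and at least `6` for `d = 3`: for all large `H` there is a polynomial `f` of degree `d`
without repeated roots and with coefficients at most `H` in absolute value, and an integral point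
`(x, y)` of `y² = f(x)` with `|x| ≥ c H ^ 3` (`|x| ≥ c H ^ 6` for `d = 3`).

Such polynomials are not rare: there is `K > 0` such that for all `A ≥ 1`, `S ≥ K` at least
`A ^ ⌊(d + 1) / 4⌋ S / 2` polynomials `f` of degree `d` without repeated roots and with coefficients
at most `H = K A ^ 4 S ^ 2` have an integral point with `x ≥ S ^ 6`. For `S = A ^ m` these are at
least `c H ^ ((⌊(d + 1) / 4⌋ + m) / (4 + 2 m))` polynomials and points with
`x ≥ c H ^ (3 - 6 / (m + 2))`. If one counts the pairs `(f, x)` and the chance `(H x ^ d) ^ (-1 / 2)`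
that `f(x)` is a square then one expects `H ^ (d + 1 / 2 - e (d / 2 - 1))` polynomials with an
integral point of size `H ^ e`, and none at all if `e > 2` and `d` is large.

The polynomials are members `A(x) + t B(x)` of pencils, and the points are polynomials in `t`.

* `d ≥ 3` and the exponent `3`. Let `x = t ^ 3` and `y = y₀ + y₁ t + y₂ t ^ 2` with `yᵢ` in `ℤ[x]`.
  The coefficient of `t ^ 2` in `y ^ 2` is `y₁ ^ 2 + 2 y₀ y₂`; this is a conic over `ℚ(x)` with the
  points `(a ^ 2, 2 a b, - 2 b ^ 2)`. Hence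
  `y ^ 2 = a (a ^ 3 - 8 b ^ 3 x) + 4 t b (a ^ 3 + b ^ 3 x)` for arbitrary `a`, `b` in `ℤ[x]`. We take
  powers of `x` for `a`, `b` and `t = s ^ 2`, when `x = s ^ 6` is a square, so that the polynomial
  may be multiplied or divided by `x`; this gives all the degrees. For many polynomials let
  `j = ⌊(d + 1) / 4⌋ - 1`, `b` arbitrary of degree at most `j`, and
  `f = x ^ (4 j + 3) - 8 b ^ 3 x ^ (j + 1) + 4 s ^ 2 (b x ^ (3 j + 2) + b ^ 4)` or
  `f = b ^ 4 - 8 b x ^ (3 j + 4) + 4 s ^ 2 (b ^ 3 x ^ (j + 1) + x ^ (4 j + 5))`, or `x` times these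
  polynomials. If `b(0) > 0` then `f` determines `s` and `b`, since it determines `s ^ 2 b ^ 4`
  respectively `b ^ 4` modulo `x ^ (j + 1)`.
* `d = 3` and the exponent `6`. Let `f₁` and `g₀` be cubic polynomials. The elliptic curve
  `z ^ 2 = f₁(x) + g₀(x) / t` over `ℚ(t)` is a rational elliptic surface with reducible fibres of type
  `D₄` (at `t = 0`) and `A₁`; if `g₀(αᵢ) = 0` and `f₁(αᵢ) = βᵢ ^ 2` then its Mordell-Weil lattice is
  generated by the orthogonal points `uᵢ = (αᵢ, βᵢ)` of height `1 / 2`. The point `P = 3 u₁ + 2 u₂`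
  of height `13 / 2` meets the zero section three times. If all three intersections lie over
  `t = ∞` then the coordinates of `P` are polynomials in `t` of the degrees `6` and `9`, and
  `(t z) ^ 2 = t (t f₁(x) + g₀(x))`; for `t = s ^ 2` we get the integral point `(x, s z)` of
  `y ^ 2 = s ^ 2 f₁(x) + g₀(x)`. The first condition is `3 u₁ + 2 u₂ = 0` on the curve
  `z ^ 2 = f₁(x)`, satisfied for `u₁ = 2 w`, `u₂ = - 3 w`; the second is linear in `g₀`, and the
  third holds for the curves `v ^ 2 + (1 - c) x v - b v = x ^ 3 - b x ^ 2`, `w = (0, 0)`, with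
  `b = c ^ 3 / (c - 1)` (found by a search). For `c = 1 / 2` we get, in other coordinates,
  `(s z) ^ 2 = s ^ 2 (4 x ^ 3 + 5 x ^ 2 + 4 x + 4) + 4 (x ^ 2 - x - 2)` with
  `x = 4 t ^ 6 - 28 t ^ 5 + 81 t ^ 4 - 122 t ^ 3 + 95 t ^ 2 - 30 t - 1`, `t = s ^ 2`,
  `z = 16 t ^ 9 - 168 t ^ 8 + 780 t ^ 7 - 2090 t ^ 6 + 3516 t ^ 5 - 3759 t ^ 4 + 2432 t ^ 3
  - 807 t ^ 2 + 60 t + 19`.

Repeated roots: if `A` and `B` are coprime and `A B' - A' B ≠ 0` then `A + t B` has no repeated
roots for all but at most `deg A + deg B` values of `t`.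
-/

set_option autoImplicit false

open Polynomial Filter

namespace Pool.Agent.Results.MP_d88658_nt.LowerBoundsForConstant

/-- the largest absolute value of a coefficient -/
def maxCoeff (f : ℤ[X]) : ℕ := f.support.sup (fun i => (f.coeff i).natAbs)

/-- `C₁`, `C₂` are constants as in the question for the degree `d`. -/
def Admissible (d : ℕ) (C₁ C₂ : ℝ) : Prop :=
  ∀ f : ℤ[X], f.natDegree = d → (f.map (Int.castRingHom ℚ)).Separable →
    ∀ x y : ℤ, y ^ 2 = f.eval x →
      Real.log (max |(x : ℝ)| 1) ≤ C₁ * Real.log (max (maxCoeff f : ℝ) 1) + C₂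

/-- For some `c > 0` and for every large `H` there are a polynomial `f` of degree `d` without
repeated roots and with coefficients at most `H` in absolute value and an integral point `(x, y)`
of `y² = f(x)` with `|x| ≥ c H ^ e`. -/
def LargePoints (d e : ℕ) : Prop :=
  ∃ c : ℝ, 0 < c ∧ ∀ᶠ H : ℕ in atTop, ∃ f : ℤ[X], f.natDegree = d ∧
    (f.map (Int.castRingHom ℚ)).Separable ∧ maxCoeff f ≤ H ∧
    ∃ x y : ℤ, y ^ 2 = f.eval x ∧ c * (H : ℝ) ^ e ≤ |(x : ℝ)|

/-- For some `K > 0` and all `A ≥ 1`, `S ≥ K` there are at least `A ^ ⌊(d + 1) / 4⌋ S / 2`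
polynomials `f` of degree `d` without repeated roots and with coefficients at most `K A ^ 4 S ^ 2` in
absolute value such that `y² = f(x)` has an integral point with `x ≥ S ^ 6`. -/
def ManyPoints (d : ℕ) : Prop :=
  ∃ K : ℕ, 0 < K ∧ ∀ A S : ℕ, 1 ≤ A → K ≤ S → ∃ F : Finset ℤ[X],
    A ^ ((d + 1) / 4) * S ≤ 2 * F.card ∧ ∀ f ∈ F, f.natDegree = d ∧
      (f.map (Int.castRingHom ℚ)).Separable ∧ maxCoeff f ≤ K * A ^ 4 * S ^ 2 ∧
      ∃ x y : ℤ, y ^ 2 = f.eval x ∧ (S : ℤ) ^ 6 ≤ x

/-- the exponents: `6` for cubic polynomials and `3` for the other degrees -/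
def expo (d : ℕ) : ℕ := if d = 3 then 6 else 3

/-- **Lower bounds for the constant of every degree.** Let `d ≥ 3`, and `e = 6` if `d = 3`, `e = 3`
if `d ≥ 4`. For all large `H` there are integral points with `|x| ≥ c H ^ e` on curves `y² = f(x)`,
`f` of degree `d` without repeated roots and with coefficients at most `H`. Therefore `C₁ ≥ e` for
all constants `C₁`, `C₂` as in the question for the degree `d`. The number of the polynomials with
points of almost the size `H ^ 3` is at least a power of `H` with an exponent proportional to `d`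
(see `ManyPoints`). -/
theorem result (d : ℕ) (hd : 3 ≤ d) :
    LargePoints d (expo d) ∧ (∀ C₁ C₂ : ℝ, Admissible d C₁ C₂ → (expo d : ℝ) ≤ C₁) ∧
      ManyPoints d := by
  have h : Pool.Agent.U60.HL.LargePoints d (expo d) := by
    unfold expo
    split_ifs with h3
    · subst h3
      exact Pool.Agent.U60.HL.large_six
    · exact Pool.Agent.U60.HL.large_three d hd
  have he : 1 ≤ expo d := by
    unfold expo
    split_ifs <;> norm_num
  exact ⟨h, fun C₁ C₂ hC => Pool.Agent.U60.HL.le_of_admissible he h hC,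
    Pool.Agent.U60.HL.many_points d hd⟩

end Pool.Agent.Results.MP_d88658_nt.LowerBoundsForConstant
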