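import Mathlib
import Pool.Agent.U964.ML.Hyp
import Pool.Agent.U964.ML.Hall

/-!
# Integral points with a power quotient: the conjectured height bound for all exponents `n > 2 d`

Let `f` be an integer polynomial of degree `d` with leading coefficient `a` and `(x, y)` an integral point
of `y² = f(x)` (or of `y ^ m = f(x)`, for any `m ≥ 1`). The numbers `y²` and `a x ^ d` differ by a factor
which is close to `1`. Suppose that this factor `y² / (a x ^ d)` is, up to the sign and up to a fixed finite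
set of primes, an `n`-th power; for instance `x` and `y` are `n`-th powers and `f` is monic.

Then for every `n > 2 d` the height bound of the conjecture holds for all `f` and all these points, with
`C₁ = n / (n - 2 d) + ε` and with `C₂` depending on `d`, `S` and `ε` only (not on `n`).

Second part: for all `n ≥ N (1 + h(f))` and all `f` of degree `d` whose leading coefficient is composed of
primes of `S`, and all positive integers `s`, `t` composed of primes of `S`, every integral solution of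
`(t Y ^ n) ^ m = f (s X ^ n)` with `Y ≠ 0` has `|X| ≤ 1`.
-/

set_option autoImplicit false

open Polynomial

namespace Pool.Agent.Results.MP_d88658_nt.PowerQuotientPoints

/-- up to the sign and up to the primes in `S`, the rational number `r` is an `n`-th power -/
def IsAlmostPower (S : Finset ℕ) (n : ℕ) (r : ℚ) : Prop :=
  ∀ q : ℕ, q.Prime → q ∉ S → (n : ℤ) ∣ padicValRat q r

/-- all prime factors of `s` are in `S` -/
def IsSInteger (S : Finset ℕ) (s : ℤ) : Prop := s ≠ 0 ∧ ∀ q : ℕ, q.Prime → (q : ℤ) ∣ s → q ∈ S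

/-- the largest absolute value of a coefficient -/
def maxCoeff (f : ℤ[X]) : ℕ := f.support.sup fun i => (f.coeff i).natAbs

lemma le_maxCoeff (f : ℤ[X]) (i : ℕ) : (f.coeff i).natAbs ≤ maxCoeff f := by
  by_cases h : i ∈ f.support
  · exact Finset.le_sup (f := fun i => (f.coeff i).natAbs) h
  · rw [notMem_support_iff] at h
    rw [h]
    exact Nat.zero_le _

/-- the choice of the small exponent -/
lemma choice {D u ε : ℝ} (hD : 1 ≤ D) (hu : 1 / D ≤ u) (hε : 0 < ε) {t : ℝ} (ht0 : 0 ≤ t)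
    (ht1 : t ≤ 1 / (2 * D)) (ht2 : t ≤ ε / (2 * D ^ 2)) : 0 < u - t ∧ 1 / (u - t) ≤ 1 / u + ε := by
  have hD0 : 0 < D := by linarith
  have hu0 : 0 < u := lt_of_lt_of_le (by positivity) hu
  have h1 : 1 ≤ u * D := by rwa [div_le_iff₀ hD0] at hu
  have h2 : t * (2 * D) ≤ 1 := by rwa [le_div_iff₀ (by positivity)] at ht1
  have h3 : t * (2 * D ^ 2) ≤ ε := by rwa [le_div_iff₀ (by positivity)] at ht2
  have h4 : t ≤ u / 2 := by
    have : t * (2 * D) ≤ u * D := h2.trans h1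
    nlinarith
  have h5 : 0 < u - t := by linarith
  refine ⟨h5, ?_⟩
  have e1 : 1 / u + ε = (1 + ε * u) / u := by field_simp
  rw [e1, div_le_div_iff₀ h5 hu0]
  -- u ≤ (1 + ε u)(u - t) ⟸ t (1 + ε u) ≤ ε u ^ 2
  have h6 : t ≤ ε * (u - t) * u := by
    have h7 : 1 ≤ u ^ 2 * D ^ 2 := by nlinarith
    have h8 : u / 2 ≤ u - t := by linarith
    have h9 : ε * (u / 2) * u ≤ ε * (u - t) * u := by gcongr
    refine le_trans ?_ h9
    have h10 : t ≤ t * (u ^ 2 * D ^ 2) := le_mul_of_one_le_right ht0 h7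
    have h11 : t * (2 * D ^ 2) * u ^ 2 ≤ ε * u ^ 2 := by gcongr
    nlinarith
  nlinarith

/-- the bound for all points -/
lemma main (d : ℕ) (hd : 2 ≤ d) (S : Finset ℕ) (ε : ℝ) (hε : 0 < ε) : ∃ C : ℝ, 0 ≤ C ∧
    ∀ n : ℕ, 2 * d < n → ∀ f : ℤ[X], f.natDegree = d →
      (f.map (Int.castRingHom ℚ)).Separable →
      ∀ m : ℕ, ∀ x y : ℤ, y ^ m = f.eval x → x ≠ 0 → y ≠ 0 →
        IsAlmostPower S n ((y : ℚ) ^ m / (f.leadingCoeff * (x : ℚ) ^ d)) →
        Real.log (max |(x : ℝ)| 1) ≤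
          ((n : ℝ) / ((n : ℝ) - 2 * d) + ε) * Real.log (max (maxCoeff f : ℝ) 1) + C := by
  have hdr : (2:ℝ) ≤ d := by exact_mod_cast hd
  have hdpos : (0:ℝ) < d := by linarith
  obtain ⟨D, hD⟩ : ∃ D : ℝ, D = 2 * d + 1 := ⟨_, rfl⟩
  have hD1 : 1 ≤ D := by rw [hD]; linarith
  have hD0 : 0 < D := by linarith
  obtain ⟨t, ht⟩ : ∃ t : ℝ, t = min (1 / (2 * D)) (ε / (2 * D ^ 2)) := ⟨_, rfl⟩
  have ht0 : 0 < t := by rw [ht]; exact lt_min (by positivity) (by positivity)
  have ht1 : t ≤ 1 / (2 * D) := by rw [ht]; exact min_le_left _ _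
  have ht2 : t ≤ ε / (2 * D ^ 2) := by rw [ht]; exact min_le_right _ _
  obtain ⟨κ0, hκ00, hgap⟩ := Pool.Agent.U964.ML.gap_all S (t / d) (by positivity)
  obtain ⟨L, hL⟩ : ∃ L : ℝ, L = Real.log d + |Real.log κ0| := ⟨_, rfl⟩
  have hld : 0 ≤ Real.log d := Real.log_nonneg (by linarith)
  have hL0 : 0 ≤ L := by rw [hL]; positivity
  have hlL : Real.log d ≤ L := by rw [hL]; linarith [abs_nonneg (Real.log κ0)]
  refine ⟨(D + ε) * L, by positivity, ?_⟩
  intro n hn f hf hsep m x y hxy hx hy hAP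
  have hnr : (2:ℝ) * d + 1 ≤ n := by exact_mod_cast hn
  have hn0 : (0:ℝ) < n := by linarith
  obtain ⟨u, hu⟩ : ∃ u : ℝ, u = 1 - 2 * d / n := ⟨_, rfl⟩
  have hun : u = ((n:ℝ) - 2 * d) / n := by rw [hu]; field_simp
  have huD : 1 / D ≤ u := by
    rw [hun, div_le_div_iff₀ hD0 hn0, hD]
    nlinarith
  have hu1 : u ≤ 1 := by
    rw [hu]
    have : 0 ≤ 2 * (d:ℝ) / n := by positivity
    linarith
  have hu0 : 0 < u := lt_of_lt_of_le (by positivity) huD
  have hinv : (n : ℝ) / ((n : ℝ) - 2 * d) = 1 / u := by rw [hun, one_div_div]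
  obtain ⟨hut, hch⟩ := choice hD1 huD hε ht0.le ht1 ht2
  rw [hinv]
  obtain ⟨A, hA⟩ : ∃ A : ℝ, A = 1 / u + ε := ⟨_, rfl⟩
  rw [← hA] at hch ⊢
  have hA1 : 1 ≤ A := by
    have : 1 ≤ 1 / u := by rw [le_div_iff₀ hu0]; linarith
    rw [hA]; linarith
  have hAD : A ≤ D + ε := by
    have : 1 / u ≤ D := by
      rw [div_le_iff₀ hu0]
      rw [div_le_iff₀ hD0] at huD
      linarith
    rw [hA]; linarith
  have hAL : A * L ≤ (D + ε) * L := by gcongr
  obtain ⟨M, hM⟩ : ∃ M : ℝ, M = max (maxCoeff f : ℝ) 1 := ⟨_, rfl⟩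
  have hM1 : 1 ≤ M := by rw [hM]; exact le_max_right _ _
  have hMpos : 0 < M := by linarith
  have hlM : 0 ≤ Real.log M := Real.log_nonneg hM1
  have hxr : (1:ℝ) ≤ |(x:ℝ)| := by
    have := Int.one_le_abs hx
    exact_mod_cast this
  have hxpos : (0:ℝ) < |(x:ℝ)| := by linarith
  have hlx : 0 ≤ Real.log |(x:ℝ)| := Real.log_nonneg hxr
  rw [max_eq_left hxr, ← hM]
  have hAM : Real.log M ≤ A * Real.log M := le_mul_of_one_le_left hlM hA1
  by_cases heq : f.eval x = f.leadingCoeff * x ^ d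
  · -- the lower terms vanish
    have hg : f.eraseLead ≠ 0 := by
      intro h0
      have h1 := f.eraseLead_add_C_mul_X_pow
      rw [h0, zero_add, hf] at h1
      rw [← h1, Polynomial.map_mul, map_C, Polynomial.map_pow, map_X] at hsep
      have h2 : (X ^ d : ℚ[X]).Separable := hsep.of_mul_right
      have h3 := (h2.squarefree) X (by
        rw [← pow_two]
        exact pow_dvd_pow _ hd)
      exact not_isUnit_X h3
    have hroot : f.eraseLead.eval x = 0 := by
      have h1 := congrArg (fun p : ℤ[X] => p.eval x) f.eraseLead_add_C_mul_X_pow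
      simp only [eval_add, eval_mul, eval_C, eval_pow, eval_X, hf] at h1
      rw [heq] at h1
      linarith
    have h1 := Pool.Agent.U964.ML.root_le f.eraseLead hg (maxCoeff f) (fun i => by
      rw [eraseLead_coeff]
      split_ifs
      · exact Nat.zero_le _
      · exact le_maxCoeff f i) x hroot
    have h2 : |(x:ℝ)| ≤ M := h1.trans (by rw [hM]; exact le_max_left _ _)
    have h3 : Real.log |(x:ℝ)| ≤ Real.log M := Real.log_le_log (by linarith) h2
    have h4 : 0 ≤ (D + ε) * L := by positivity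
    linarith
  · have hsum : ∑ i ∈ Finset.range d, |(f.coeff i : ℝ)| ≤ d * M := by
      calc ∑ i ∈ Finset.range d, |(f.coeff i : ℝ)| ≤ ∑ _i ∈ Finset.range d, M := by
            refine Finset.sum_le_sum fun i _ => ?_
            have h1 := le_maxCoeff f i
            have h2 : |(f.coeff i : ℤ)| ≤ (maxCoeff f : ℤ) := by
              rw [Int.abs_eq_natAbs]
              exact_mod_cast h1
            have h3 : |(f.coeff i : ℝ)| ≤ (maxCoeff f : ℝ) := by exact_mod_cast h2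
            exact h3.trans (by rw [hM]; exact le_max_left _ _)
        _ = d * M := by rw [Finset.sum_const, Finset.card_range, nsmul_eq_mul]
    have hf0 : f ≠ 0 := by rintro rfl; rw [natDegree_zero] at hf; omega
    have hlc : f.leadingCoeff ≠ 0 := leadingCoeff_ne_zero.2 hf0
    have hlcr : (1:ℝ) ≤ |(f.leadingCoeff : ℝ)| := by
      have := Int.one_le_abs hlc
      exact_mod_cast this
    have hfx : f.eval x ≠ 0 := by
      rw [← hxy]
      exact pow_ne_zero _ hy
    have hv : f.leadingCoeff * x ^ d ≠ 0 := mul_ne_zero hlc (pow_ne_zero _ hx)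
    have hdiff : |((f.eval x : ℤ) : ℝ) - ((f.leadingCoeff * x ^ d : ℤ) : ℝ)| ≤
        d * M * |(x:ℝ)| ^ (d - 1) := by
      have h1 : f.eval x - f.leadingCoeff * x ^ d = ∑ i ∈ Finset.range d, f.coeff i * x ^ i := by
        rw [eval_eq_sum_range, hf, Finset.sum_range_succ, leadingCoeff, hf]
        ring
      have h2 : ((f.eval x : ℤ) : ℝ) - ((f.leadingCoeff * x ^ d : ℤ) : ℝ) =
          ∑ i ∈ Finset.range d, (f.coeff i : ℝ) * (x:ℝ) ^ i := by
        have := congrArg (fun z : ℤ => (z : ℝ)) h1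
        push_cast at this ⊢
        exact this
      rw [h2]
      refine (Finset.abs_sum_le_sum_abs _ _).trans ?_
      calc ∑ i ∈ Finset.range d, |(f.coeff i : ℝ) * (x:ℝ) ^ i|
          ≤ ∑ i ∈ Finset.range d, |(f.coeff i : ℝ)| * |(x:ℝ)| ^ (d - 1) := by
            refine Finset.sum_le_sum fun i hi => ?_
            rw [abs_mul, abs_pow]
            refine mul_le_mul_of_nonneg_left (pow_le_pow_right₀ hxr ?_) (abs_nonneg _)
            have := Finset.mem_range.1 hi
            omega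
        _ = (∑ i ∈ Finset.range d, |(f.coeff i : ℝ)|) * |(x:ℝ)| ^ (d - 1) := by rw [Finset.sum_mul]
        _ ≤ d * M * |(x:ℝ)| ^ (d - 1) := by gcongr
    have hlead : |(x:ℝ)| ^ d ≤ |((f.leadingCoeff * x ^ d : ℤ) : ℝ)| := by
      rw [Int.cast_mul, Int.cast_pow, abs_mul, abs_pow]
      have h2 : 0 ≤ |(x:ℝ)| ^ d := by positivity
      nlinarith
    have hpd : |(x:ℝ)| ^ d = |(x:ℝ)| * |(x:ℝ)| ^ (d - 1) := by
      rw [← pow_succ']
      congr 1
      omega
    have hpp : 0 < |(x:ℝ)| ^ (d - 1) := by positivity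
    have hcX : ((f.eval x).natAbs : ℝ) = |((f.eval x : ℤ) : ℝ)| := by
      rw [← Int.cast_abs, Int.abs_eq_natAbs]; simp
    have hcY : ((f.leadingCoeff * x ^ d).natAbs : ℝ) = |((f.leadingCoeff * x ^ d : ℤ) : ℝ)| := by
      rw [← Int.cast_abs, Int.abs_eq_natAbs]; simp
    by_cases hneg : (f.eval x).natAbs = (f.leadingCoeff * x ^ d).natAbs
    · -- the value is minus the leading term
      have h1 : f.eval x = -(f.leadingCoeff * x ^ d) :=
        (Int.natAbs_eq_natAbs_iff.1 hneg).resolve_left heq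
      have h2 : |(x:ℝ)| ^ d ≤ d * M * |(x:ℝ)| ^ (d - 1) := by
        refine le_trans ?_ hdiff
        refine hlead.trans ?_
        rw [h1]
        push_cast
        have h3 : -((f.leadingCoeff : ℝ) * (x:ℝ) ^ d) - (f.leadingCoeff : ℝ) * (x:ℝ) ^ d =
            -(2 * ((f.leadingCoeff : ℝ) * (x:ℝ) ^ d)) := by ring
        rw [h3, abs_neg, abs_mul (2:ℝ), abs_of_pos (by norm_num : (0:ℝ) < 2)]
        have := abs_nonneg ((f.leadingCoeff : ℝ) * (x:ℝ) ^ d)
        linarith
      rw [hpd] at h2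
      have h3 : |(x:ℝ)| ≤ d * M := le_of_mul_le_mul_right h2 hpp
      have h4 := Real.log_le_log hxpos h3
      rw [Real.log_mul hdpos.ne' hMpos.ne'] at h4
      have h5 : L ≤ A * L := le_mul_of_one_le_left hL0 hA1
      linarith
    · have hX1 : 1 ≤ (f.eval x).natAbs := Nat.pos_of_ne_zero (Int.natAbs_ne_zero.2 hfx)
      have hY1 : 1 ≤ (f.leadingCoeff * x ^ d).natAbs := Nat.pos_of_ne_zero (Int.natAbs_ne_zero.2 hv)
      have h1 := hgap n (by omega) (f.eval x).natAbs (f.leadingCoeff * x ^ d).natAbs hX1 hY1 hneg (by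
        intro q hq hqS
        have : Fact q.Prime := ⟨hq⟩
        have h2 := hAP q hq hqS
        have e1 : ((y : ℚ) ^ m / (f.leadingCoeff * (x : ℚ) ^ d)) =
            (((f.eval x : ℤ) : ℚ) / ((f.leadingCoeff * x ^ d : ℤ) : ℚ)) := by
          rw [← hxy]
          push_cast
          rfl
        have hfq : ((f.eval x : ℤ) : ℚ) ≠ 0 := by exact_mod_cast hfx
        have hvq : ((f.leadingCoeff * x ^ d : ℤ) : ℚ) ≠ 0 := by exact_mod_cast hv
        rw [e1, padicValRat.div hfq hvq, padicValRat.of_int, padicValRat.of_int] at h2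
        rw [Nat.factorization_def _ hq, Nat.factorization_def _ hq]
        exact h2)
      rw [hcX, hcY] at h1
      have hWx : |(x:ℝ)| ^ d ≤ max |((f.eval x : ℤ) : ℝ)| |((f.leadingCoeff * x ^ d : ℤ) : ℝ)| :=
        hlead.trans (le_max_right _ _)
      have habs : |(|((f.eval x : ℤ) : ℝ)| - |((f.leadingCoeff * x ^ d : ℤ) : ℝ)|)| ≤
          d * M * |(x:ℝ)| ^ (d - 1) := (abs_abs_sub_abs_le_abs_sub _ _).trans hdiff
      have he : (d:ℝ) * (1 - 2 / n - t / d) = ((d - 1 : ℕ) : ℝ) + (u - t) := by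
        rw [Nat.cast_sub (by omega), hu]
        field_simp
        push_cast
        ring
      have he0 : 0 ≤ 1 - 2 / (n:ℝ) - t / d := by
        have h3 : 0 ≤ (d:ℝ) * (1 - 2 / n - t / d) := by rw [he]; positivity
        exact nonneg_of_mul_nonneg_right h3 hdpos
      have h2 : κ0 * (|(x:ℝ)| ^ (d - 1) * |(x:ℝ)| ^ (u - t)) ≤ d * M * |(x:ℝ)| ^ (d - 1) := by
        refine le_trans ?_ (h1.trans habs)
        refine mul_le_mul_of_nonneg_left ?_ hκ00.le
        calc |(x:ℝ)| ^ (d - 1) * |(x:ℝ)| ^ (u - t) = |(x:ℝ)| ^ ((d:ℝ) * (1 - 2 / n - t / d)) := by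
              rw [he, Real.rpow_add hxpos, Real.rpow_natCast]
          _ = (|(x:ℝ)| ^ d) ^ (1 - 2 / (n:ℝ) - t / d) := by
              rw [← Real.rpow_natCast, ← Real.rpow_mul hxpos.le]
          _ ≤ _ := Real.rpow_le_rpow (by positivity) hWx he0
      have h3 : κ0 * |(x:ℝ)| ^ (u - t) ≤ d * M := by
        have e2 : κ0 * (|(x:ℝ)| ^ (d - 1) * |(x:ℝ)| ^ (u - t)) =
            κ0 * |(x:ℝ)| ^ (u - t) * |(x:ℝ)| ^ (d - 1) := by ring
        rw [e2] at h2
        exact le_of_mul_le_mul_right h2 hpp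
      have h4 := Real.log_le_log (by positivity) h3
      rw [Real.log_mul hκ00.ne' (Real.rpow_pos_of_pos hxpos _).ne', Real.log_rpow hxpos,
        Real.log_mul hdpos.ne' hMpos.ne'] at h4
      have h5 : (u - t) * Real.log |(x:ℝ)| ≤ Real.log M + L := by
        rw [hL]
        have := neg_abs_le (Real.log κ0)
        linarith
      have h6 : Real.log |(x:ℝ)| ≤ 1 / (u - t) * (Real.log M + L) := by
        rw [one_div, ← div_eq_inv_mul, le_div_iff₀ hut]
        linarith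
      have h7 : 1 / (u - t) * (Real.log M + L) ≤ A * (Real.log M + L) := by
        gcongr
      nlinarith

/-- a product of powers of an `S`-integer and of `n`-th powers -/
lemma almost {S : Finset ℕ} {n m d : ℕ} {s t a X Y : ℤ} (hs : IsSInteger S s)
    (ht : IsSInteger S t) (ha : IsSInteger S a) (hX : X ≠ 0) (hY : Y ≠ 0) :
    IsAlmostPower S n (((t * Y ^ n : ℤ) : ℚ) ^ m / (a * ((s * X ^ n : ℤ) : ℚ) ^ d)) := by
  intro q hq hqS
  have : Fact q.Prime := ⟨hq⟩
  have hval : ∀ z : ℤ, IsSInteger S z → padicValRat q (z : ℚ) = 0 := by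
    intro z hz
    rw [padicValRat.of_int, padicValInt.eq_zero_of_not_dvd]
    · rfl
    · exact fun hc => hqS (hz.2 q hq hc)
  have hsq : (s : ℚ) ≠ 0 := by exact_mod_cast hs.1
  have htq : (t : ℚ) ≠ 0 := by exact_mod_cast ht.1
  have haq : (a : ℚ) ≠ 0 := by exact_mod_cast ha.1
  have hXq : (X : ℚ) ≠ 0 := by exact_mod_cast hX
  have hYq : (Y : ℚ) ≠ 0 := by exact_mod_cast hY
  have hYn : (Y : ℚ) ^ n ≠ 0 := pow_ne_zero _ hYq
  have hXn : (X : ℚ) ^ n ≠ 0 := pow_ne_zero _ hXq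
  have htY : (t : ℚ) * (Y : ℚ) ^ n ≠ 0 := mul_ne_zero htq hYn
  have hsX : (s : ℚ) * (X : ℚ) ^ n ≠ 0 := mul_ne_zero hsq hXn
  have e1 : padicValRat q (((t : ℚ) * (Y : ℚ) ^ n) ^ m) = m * (n * padicValRat q (Y : ℚ)) := by
    rw [padicValRat.pow, padicValRat.mul htq hYn, padicValRat.pow, hval t ht, zero_add]
  have e2 : padicValRat q ((a : ℚ) * ((s : ℚ) * (X : ℚ) ^ n) ^ d) =
      d * (n * padicValRat q (X : ℚ)) := by
    rw [padicValRat.mul haq (pow_ne_zero _ hsX), padicValRat.pow, padicValRat.mul hsq hXn,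
      padicValRat.pow, hval s hs, hval a ha, zero_add, zero_add]
  have e3 : (((t * Y ^ n : ℤ) : ℚ) ^ m / (a * ((s * X ^ n : ℤ) : ℚ) ^ d)) =
      ((t : ℚ) * (Y : ℚ) ^ n) ^ m / ((a : ℚ) * ((s : ℚ) * (X : ℚ) ^ n) ^ d) := by
    push_cast
    rfl
  rw [e3, padicValRat.div (pow_ne_zero _ htY) (mul_ne_zero haq (pow_ne_zero _ hsX)), e1, e2]
  exact ⟨m * padicValRat q (Y : ℚ) - d * padicValRat q (X : ℚ), by ring⟩

theorem result (d : ℕ) (hd : 2 ≤ d) (S : Finset ℕ) :
    (∀ ε : ℝ, 0 < ε → ∃ C : ℝ, ∀ n : ℕ, 2 * d < n →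
      ∀ f : ℤ[X], f.natDegree = d → (f.map (Int.castRingHom ℚ)).Separable →
      ∀ m : ℕ, ∀ x y : ℤ, y ^ m = f.eval x → x ≠ 0 → y ≠ 0 →
        IsAlmostPower S n ((y : ℚ) ^ m / (f.leadingCoeff * (x : ℚ) ^ d)) →
        Real.log (max |(x : ℝ)| 1) ≤
          ((n : ℝ) / ((n : ℝ) - 2 * d) + ε) * Real.log (max (maxCoeff f : ℝ) 1) + C) ∧
    ∃ N : ℕ, ∀ f : ℤ[X], f.natDegree = d → (f.map (Int.castRingHom ℚ)).Separable →
      IsSInteger S f.leadingCoeff → ∀ s t : ℤ, IsSInteger S s → IsSInteger S t →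
      ∀ m n : ℕ, N * (1 + Real.log (max (maxCoeff f : ℝ) 1)) ≤ n →
      ∀ X Y : ℤ, (t * Y ^ n) ^ m = f.eval (s * X ^ n) → Y ≠ 0 → |X| ≤ 1 := by
  refine ⟨fun ε hε => ?_, ?_⟩
  · obtain ⟨C, -, h⟩ := main d hd S ε hε
    exact ⟨C, h⟩
  · obtain ⟨C, hC, h0⟩ := main d hd S (1 / 2) (by norm_num)
    have hdpos : (0:ℝ) < d := by exact_mod_cast (by omega : 0 < d)
    have h : ∀ f : ℤ[X], f.natDegree = d → (f.map (Int.castRingHom ℚ)).Separable →
        ∀ m : ℕ, ∀ x y : ℤ, y ^ m = f.eval x → x ≠ 0 → y ≠ 0 → ∀ n : ℕ, 6 * d ≤ n →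
        IsAlmostPower S n ((y : ℚ) ^ m / (f.leadingCoeff * (x : ℚ) ^ d)) →
        Real.log (max |(x : ℝ)| 1) ≤ 2 * Real.log (max (maxCoeff f : ℝ) 1) + C := by
      intro f hf hsep m x y hxy hx hy n hn hAP
      have h1 := h0 n (by omega) f hf hsep m x y hxy hx hy hAP
      refine h1.trans ?_
      have h2 : 0 ≤ Real.log (max (maxCoeff f : ℝ) 1) := Real.log_nonneg (le_max_right _ _)
      have hnr : (6:ℝ) * d ≤ n := by exact_mod_cast hn
      have h3 : (n : ℝ) / ((n : ℝ) - 2 * d) ≤ 3 / 2 := by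
        rw [div_le_iff₀ (by linarith)]
        linarith
      have h4 : (n : ℝ) / ((n : ℝ) - 2 * d) + 1 / 2 ≤ 2 := by linarith
      have h5 := mul_le_mul_of_nonneg_right h4 h2
      linarith
    obtain ⟨N1, hN1⟩ : ∃ N1 : ℕ, 2 * (2 + C) + 1 ≤ (N1 : ℝ) := exists_nat_ge _
    refine ⟨6 * d + N1, ?_⟩
    intro f hf hsep ha s t hs ht m n hn X Y hXY hY
    by_contra hcon
    rw [not_le] at hcon
    have hX2 : 2 ≤ |X| := by omega
    have hX0 : X ≠ 0 := by
      rintro rfl
      simp at hX2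
    obtain ⟨l, hl⟩ : ∃ l : ℝ, l = Real.log (max (maxCoeff f : ℝ) 1) := ⟨_, rfl⟩
    rw [← hl] at hn
    have hl0 : 0 ≤ l := by rw [hl]; exact Real.log_nonneg (le_max_right _ _)
    have hNn : 6 * d ≤ n := by
      have h1 : ((6 * d : ℕ) : ℝ) ≤ n := by
        refine le_trans ?_ hn
        push_cast
        nlinarith [(Nat.cast_nonneg N1 : (0:ℝ) ≤ N1)]
      exact_mod_cast h1
    have hx0 : s * X ^ n ≠ 0 := mul_ne_zero hs.1 (pow_ne_zero _ hX0)
    have hy0 : t * Y ^ n ≠ 0 := mul_ne_zero ht.1 (pow_ne_zero _ hY)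
    have h1 := h f hf hsep m (s * X ^ n) (t * Y ^ n) hXY hx0 hy0 n hNn
      (almost hs ht ha hX0 hY)
    rw [← hl] at h1
    have hs1 : (1:ℝ) ≤ |(s:ℝ)| := by
      have := Int.one_le_abs hs.1
      exact_mod_cast this
    have hXr : (2:ℝ) ≤ |(X:ℝ)| := by exact_mod_cast hX2
    have h2 : (2:ℝ) ^ n ≤ max |((s * X ^ n : ℤ) : ℝ)| 1 := by
      refine le_trans ?_ (le_max_left _ _)
      push_cast
      rw [abs_mul, abs_pow]
      have h3 : (2:ℝ) ^ n ≤ |(X:ℝ)| ^ n := pow_le_pow_left₀ (by norm_num) hXr n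
      have h4 : (0:ℝ) ≤ |(X:ℝ)| ^ n := by positivity
      nlinarith
    have h3 : (n:ℝ) * Real.log 2 ≤ 2 * l + C := by
      rw [← Real.log_pow]
      exact (Real.log_le_log (by positivity) h2).trans h1
    have h4 := Pool.Agent.U964.ML.log_two_gt
    have h5 : (n:ℝ) * (1 / 2) ≤ 2 * l + C := by
      refine le_trans ?_ h3
      have : (0:ℝ) ≤ n := Nat.cast_nonneg _
      nlinarith
    have h6 : (2 * (2 + C) + 1) * (1 + l) ≤ n := by
      refine le_trans ?_ hn
      push_cast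
      nlinarith
    nlinarith

end Pool.Agent.Results.MP_d88658_nt.PowerQuotientPoints
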